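import Pool.Agent.Lib.MP_4d22c1_co.Cert.All

/-!
The smallest volume of a 4-dimensional integer box with a non-trivial incomparable tiling is 504,
attained by the `3 × 3 × 7 × 8` box.
-/

namespace Pool.Agent.Results.MP_4d22c1_co.Min504

open Pool.Agent.Lib.MP_4d22c1_co

theorem result :
    IsLeast {V : ℕ | ∃ x : Fin 4 → ℕ, (∀ k, 0 < x k) ∧ HasNontrivialIncomparableTiling x ∧
      V = ∏ k, x k} 504 ∧ HasNontrivialIncomparableTiling ![3, 3, 7, 8] :=
  ⟨⟨⟨![3, 3, 7, 8], by decide, example_504, by decide⟩,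
    fun _ ⟨_, _, h, e⟩ => e ▸ Chk.lower_of Chk.no_small h⟩, example_504⟩

end Pool.Agent.Results.MP_4d22c1_co.Min504
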